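import Pool.Agent.H67.RW.Abs2

/-!
The primes in an arbitrary interval `(A, A + N]`, `A ≥ N`, at all scales from a constant times `log N` to a constant
times `N`: for almost all integers and almost all primes `n` of the interval the density of primes is the same, up to
`η / log N`, in all intervals near `n` whose lengths are between two consecutive of at most `K` cuts; it is bounded
below at all scales near almost all primes, and near a positive proportion of all integers if the interval contains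
many primes.
-/

namespace Pool.Agent.Results.MP_31d0eb_nt.AllScales

/-- The number of primes `p` with `a < p ≤ b`. -/
noncomputable def P (a b : ℝ) : ℝ := (((Finset.Ioc ⌊a⌋₊ ⌊b⌋₊).filter Nat.Prime).card : ℝ)

/-- The interval `(a, b]` is near `n`: its length is between `K log N` and `N / K`, and the distance of `a`
and `n` is at most `M` times the length. -/
def Near (M K : ℝ) (N n : ℕ) (a b : ℝ) : Prop :=
  K * Real.log N ≤ b - a ∧ b - a ≤ N / K ∧ |a - n| ≤ M * (b - a)

/-- The primes near `n` are regular: upper bounds in all near intervals, and the same density in any two near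
intervals unless one of at most `K` numbers `t ∈ T` is between half the smaller and twice the larger length. -/
def Regular (M K η : ℝ) (N n : ℕ) : Prop :=
  (∀ a b : ℝ, Near M K N n a b → P a b ≤ K * ((b - a) / Real.log N)) ∧
  (∀ a b : ℝ, Near M K N n a b → (Real.log N) ^ K ≤ b - a →
    P a b ≤ (4 + η) * ((b - a) / Real.log (N * (b - a)))) ∧
  ∃ T : Finset ℝ, (T.card : ℝ) ≤ K ∧ ∀ a b a' b' : ℝ, Near M K N n a b → Near M K N n a' b' →
    b - a ≤ b' - a' → (∀ t ∈ T, ¬ ((b - a) / 2 ≤ t ∧ t ≤ 2 * (b' - a'))) →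
    |P a b / (b - a) - P a' b' / (b' - a')| ≤ η / Real.log N

/-- Lower bounds for the number of primes to the right and to the left of `n` at all scales. -/
def Rich (K c c' : ℝ) (N n : ℕ) : Prop :=
  ∀ H : ℝ, K * Real.log N ≤ H → H ≤ N / K →
    c * (H / Real.log N) ≤ P n (n + H) ∧ c' * (H / Real.log N) ≤ P (n - H) n

private theorem card_eq (A N : ℕ) (Q : ℕ → Prop) [DecidablePred Q] :
    {n : ℕ | A < n ∧ n ≤ A + N ∧ Q n}.ncard = ((Finset.Ioc A (A + N)).filter Q).card := by
  rw [← Set.ncard_coe_finset]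
  congr 1
  ext n
  simp only [Set.mem_setOf_eq, Finset.coe_filter, Finset.mem_Ioc]
  tauto

theorem result (M c c' η : ℝ) (hM : 1 ≤ M) (hc : 0 ≤ c) (hc' : 0 ≤ c') (hη : 0 < η) :
    ∃ K : ℝ, 0 < K ∧ ∃ N0 : ℕ, ∀ N A : ℕ, N0 ≤ N → N ≤ A →
      ({n : ℕ | A < n ∧ n ≤ A + N ∧ ¬ Regular M K η N n}.ncard : ℝ) ≤ η * N ∧
      ({p : ℕ | A < p ∧ p ≤ A + N ∧ p.Prime ∧ ¬ (Regular M K η N p ∧ Rich K c c' N p)}.ncard : ℝ) ≤
        (c + c' + η) * (N / Real.log N) ∧
      ∀ ρ : ℝ, c + c' ≤ ρ → ρ * (N / Real.log N) ≤ P A (A + N) →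
        ((ρ - c - c') ^ 2 / (4 * ρ) - η) * N ≤
          ({n : ℕ | A < n ∧ n ≤ A + N ∧ Regular M K η N n ∧ Rich K c c' N n}.ncard : ℝ) := by
  classical
  obtain ⟨K, hK, N0, h⟩ := Pool.Agent.H67.RW.finA2 M c c' η hM hc hc' hη
  refine ⟨K, hK, N0, fun N A hN hA => ?_⟩
  obtain ⟨h1, h2, h3⟩ := h N A hN hA
  rw [card_eq, card_eq, card_eq]
  refine ⟨h1.trans' (le_of_eq ?_), h2.trans' (le_of_eq ?_), fun ρ hρ hm => (h3 ρ hρ hm).trans (le_of_eq ?_)⟩
  all_goals
    congr 2

end Pool.Agent.Results.MP_31d0eb_nt.AllScales
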