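import Pool.Agent.H67.EH.Fin2

/-!
Primes in short intervals: for EVERY length `H` between a power of `log X` and `X ^ (1/2 - ε)` the error has both signs,
each for many `n` near `X`, with an explicit size `M`; for `H ≤ X ^ (1/5 - ε)` the size is the conjectured one,
`H ^ (1/2)`, up to a power of `log X`.
-/

set_option autoImplicit false

namespace Pool.Agent.Results.MP_31d0eb_nt.BothSignsEveryLength

/-- The number of primes in `(n, n + H]` minus `∫_n^{n+H} dt / log t`. -/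
noncomputable def E (n H : ℕ) : ℝ :=
  (((Finset.Ioc n (n + H)).filter Nat.Prime).card : ℝ) - ∫ t in (n : ℝ)..(n + H : ℝ), 1 / Real.log t

/-- The size: `H ^ (1/2)` for `H ≤ X ^ (1/5)`, `X ^ (1/6) / H ^ (1/3)` for `X ^ (1/5) ≤ H ≤ X ^ (1/4)`, `H ^ (1/3)` for
`X ^ (1/4) ≤ H ≤ X ^ (1/3)`, `X ^ (2/9) / H ^ (1/3)` for `H ≥ X ^ (1/3)`. -/
noncomputable def M (X H : ℝ) : ℝ :=
  max (min (H ^ (1 / 2 : ℝ)) (X ^ (1 / 6 : ℝ) / H ^ (1 / 3 : ℝ))) (min (H ^ (1 / 3 : ℝ)) (X ^ (2 / 9 : ℝ) / H ^ (1 / 3 : ℝ)))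

/-- The loss. -/
noncomputable def L (ε X H : ℝ) : ℝ := if H ≤ X ^ (1 / 5 - ε) then Real.log X ^ 40 else X ^ ε

theorem result (ε : ℝ) (hε : 0 < ε) : ∃ X₀ : ℝ, ∀ X H : ℕ, X₀ ≤ X → Real.log X ^ 101 ≤ H → (H : ℝ) ≤ (X : ℝ) ^ (1 / 2 - ε) →
    (∃ S : Finset ℕ, X * (M X H / (L ε X H * H)) ^ 2 ≤ S.card ∧ ∀ n ∈ S,
      X / √(Real.log X) ≤ n ∧ (n : ℝ) ≤ X * √(Real.log X) ∧ M X H / L ε X H ≤ E n H) ∧
    (∃ S : Finset ℕ, X * (M X H / (L ε X H * H)) ^ 2 ≤ S.card ∧ ∀ n ∈ S,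
      X / √(Real.log X) ≤ n ∧ (n : ℝ) ≤ X * √(Real.log X) ∧ E n H ≤ -(M X H / L ε X H)) := by
  obtain ⟨X0, h⟩ := Pool.Agent.H67.EH.eh2 ε hε
  obtain ⟨x1, hx1⟩ := Pool.Agent.H67.EH.win_in
  refine ⟨max X0 x1, fun X H hX hH1 hH2 => ⟨?_, ?_⟩⟩
  · have h1 := h X (by exact_mod_cast (le_max_left _ _).trans hX) H hH1 hH2 1 (Or.inl rfl)
    refine ⟨_, h1, fun n hn => ?_⟩
    rw [Finset.mem_filter] at hn
    obtain ⟨a1, a2⟩ := hx1 X n ((le_max_right _ _).trans hX) hn.1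
    refine ⟨a1, a2, ?_⟩
    have h2 := hn.2
    rw [one_mul] at h2
    exact h2
  · have h1 := h X (by exact_mod_cast (le_max_left _ _).trans hX) H hH1 hH2 (-1) (Or.inr rfl)
    refine ⟨_, h1, fun n hn => ?_⟩
    rw [Finset.mem_filter] at hn
    obtain ⟨a1, a2⟩ := hx1 X n ((le_max_right _ _).trans hX) hn.1
    refine ⟨a1, a2, ?_⟩
    have h2 := hn.2
    rw [neg_one_mul] at h2
    exact le_neg_of_le_neg h2

end Pool.Agent.Results.MP_31d0eb_nt.BothSignsEveryLength
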