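import Pool.Agent.H67.TS.Fft

/-!
Primes in short intervals: errors of both signs at every exponent `0 < θ < 1`, of size at least the fourth root of the
length; for `θ ≤ 1/5` the size is the conjectured one, the square root of the length up to `n ^ ε`.
-/

set_option autoImplicit false

namespace Pool.Agent.Results.MP_31d0eb_nt.TwoSidedEveryExponent

theorem result (θ : ℝ) (h0 : 0 < θ) (h1 : θ < 1) (ε : ℝ) (hε : 0 < ε) (N : ℕ) :
    (∃ n H : ℕ, N ≤ n ∧ (n : ℝ) ^ θ ≤ H ∧ (H : ℝ) ≤ 2 * (n : ℝ) ^ θ ∧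
      (n : ℝ) ^ (max (θ / 4) (max (min (θ / 2) (max ((1 - 2 * θ) / 6) (1 / 12))) (θ - 1 / (3 - θ))) - ε) ≤
        (((Finset.Ioc n (n + H)).filter Nat.Prime).card : ℝ) -
          ∫ t in (n : ℝ)..(n + H : ℝ), 1 / Real.log t) ∧
    (∃ n H : ℕ, N ≤ n ∧ (n : ℝ) ^ θ ≤ H ∧ (H : ℝ) ≤ 2 * (n : ℝ) ^ θ ∧
      (((Finset.Ioc n (n + H)).filter Nat.Prime).card : ℝ) -
          ∫ t in (n : ℝ)..(n + H : ℝ), 1 / Real.log t ≤
        -(n : ℝ) ^ (max (θ / 4) (max (min (θ / 2) (max ((1 - 2 * θ) / 6) (1 / 12))) (θ - 1 / (3 - θ))) - ε)) := by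
  refine ⟨?_, ?_⟩
  · obtain ⟨n, H, k1, k2, k3, k4⟩ := Pool.Agent.H67.TS.five 1 θ ε (Or.inl rfl) h0 h1 hε N
    rw [one_mul] at k4
    exact ⟨n, H, k1, k2, k3, k4⟩
  · obtain ⟨n, H, k1, k2, k3, k4⟩ := Pool.Agent.H67.TS.five (-1) θ ε (Or.inr rfl) h0 h1 hε N
    have k5 : -(1 : ℝ) * Pool.Agent.H48.WN.EI n H = -Pool.Agent.H48.WN.EI n H := by ring
    rw [k5] at k4
    refine ⟨n, H, k1, k2, k3, ?_⟩
    have k6 : Pool.Agent.H48.WN.EI n H ≤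
        -(n : ℝ) ^ (max (θ / 4) (max (min (θ / 2) (max ((1 - 2 * θ) / 6) (1 / 12))) (θ - 1 / (3 - θ))) - ε) := by
      linarith
    exact k6

end Pool.Agent.Results.MP_31d0eb_nt.TwoSidedEveryExponent
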