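import Pool.Agent.H67.BK.Kall

/-!
Primes in short intervals: errors of both signs at every exponent `0 < θ < 1`, of size at least the power `2/7` of the
length; up to `n ^ ε` at least its cube root for `θ ≤ 1/2`, and its square root, the conjectured size, for `θ ≤ 1/5`.
For `θ ≤ 4/7` both signs occur in every interval `[Y, Y log Y]`.
-/

set_option autoImplicit false

namespace Pool.Agent.Results.MP_31d0eb_nt.TwoSidedEveryExponent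

/-- The number of primes in `(n, n + H]` minus `∫_n^{n+H} dt / log t`. -/
noncomputable def E (n H : ℕ) : ℝ :=
  (((Finset.Ioc n (n + H)).filter Nat.Prime).card : ℝ) - ∫ t in (n : ℝ)..(n + H : ℝ), 1 / Real.log t

/-- The exponent `δ(θ)`. -/
noncomputable def δ (θ : ℝ) : ℝ :=
  max (max (min (θ / 2) ((1 - 2 * θ) / 6)) (min (θ / 3) (1 / 6))) (θ - 1 / (3 - θ))

theorem result (θ : ℝ) (h0 : 0 < θ) (h1 : θ < 1) (ε : ℝ) (hε : 0 < ε) :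
    -- arbitrarily large `n`
    (∀ N : ℕ,
      (∃ n H : ℕ, N ≤ n ∧ (n : ℝ) ^ θ ≤ H ∧ (H : ℝ) ≤ 2 * (n : ℝ) ^ θ ∧ (n : ℝ) ^ (δ θ - ε) ≤ E n H) ∧
      (∃ n H : ℕ, N ≤ n ∧ (n : ℝ) ^ θ ≤ H ∧ (H : ℝ) ≤ 2 * (n : ℝ) ^ θ ∧ E n H ≤ -(n : ℝ) ^ (δ θ - ε))) ∧
    -- every interval `[Y, Y log Y]`
    (θ ≤ 4 / 7 → ∃ Y₀ : ℝ, ∀ Y : ℝ, Y₀ ≤ Y →
      (∃ n H : ℕ, Y ≤ n ∧ (n : ℝ) ≤ Y * Real.log Y ∧ (n : ℝ) ^ θ ≤ H ∧ (H : ℝ) ≤ 2 * (n : ℝ) ^ θ ∧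
        (n : ℝ) ^ (δ θ - ε) ≤ E n H) ∧
      (∃ n H : ℕ, Y ≤ n ∧ (n : ℝ) ≤ Y * Real.log Y ∧ (n : ℝ) ^ θ ≤ H ∧ (H : ℝ) ≤ 2 * (n : ℝ) ^ θ ∧
        E n H ≤ -(n : ℝ) ^ (δ θ - ε))) := by
  have hneg : ∀ n H : ℕ, -(1 : ℝ) * Pool.Agent.H48.WN.EI n H = -E n H := fun n H => by
    rw [neg_one_mul]
    rfl
  have hone : ∀ n H : ℕ, (1 : ℝ) * Pool.Agent.H48.WN.EI n H = E n H := fun n H => by
    rw [one_mul]
    rfl
  have h3 : 0 < 3 - θ := by linarith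
  have hδ : δ θ = max (Pool.Agent.H67.BK.dw θ) (θ - 1 / (3 - θ)) := rfl
  refine ⟨fun N => ⟨?_, ?_⟩, fun h2 => ?_⟩
  · obtain ⟨n, H, k1, k2, k3, k4⟩ :=
      Pool.Agent.H67.BK.five3 Pool.Agent.H67.BK.keyall 1 θ ε (Or.inl rfl) h0 h1 hε N
    rw [hone, ← hδ] at k4
    exact ⟨n, H, k1, k2, k3, k4⟩
  · obtain ⟨n, H, k1, k2, k3, k4⟩ :=
      Pool.Agent.H67.BK.five3 Pool.Agent.H67.BK.keyall (-1) θ ε (Or.inr rfl) h0 h1 hε N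
    rw [hneg, ← hδ] at k4
    exact ⟨n, H, k1, k2, k3, le_neg_of_le_neg k4⟩
  · have hd : Pool.Agent.H67.BK.dw θ = δ θ := by
      have h4 : θ - 1 / (3 - θ) ≤ min (θ / 3) (1 / 6) := by
        refine le_min ?_ ?_
        · rw [sub_le_iff_le_add, ← sub_le_iff_le_add', le_div_iff₀ h3]
          nlinarith
        · rw [sub_le_iff_le_add, ← sub_le_iff_le_add', le_div_iff₀ h3]
          nlinarith
      rw [hδ, max_eq_left]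
      exact h4.trans (le_max_right _ _)
    obtain ⟨Y1, hY1⟩ := Pool.Agent.H67.BK.res3 Pool.Agent.H67.BK.keyall 1 θ ε (Or.inl rfl) h0 (by linarith) hε
    obtain ⟨Y2, hY2⟩ := Pool.Agent.H67.BK.res3 Pool.Agent.H67.BK.keyall (-1) θ ε (Or.inr rfl) h0 (by linarith) hε
    rw [hd] at hY1 hY2
    refine ⟨max Y1 Y2, fun Y hY => ⟨?_, ?_⟩⟩
    · obtain ⟨n, H, k1, k2, k3, k4, k5⟩ := hY1 Y ((le_max_left _ _).trans hY)
      rw [hone] at k5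
      exact ⟨n, H, k1, k2, k3, k4, k5⟩
    · obtain ⟨n, H, k1, k2, k3, k4, k5⟩ := hY2 Y ((le_max_right _ _).trans hY)
      rw [hneg] at k5
      exact ⟨n, H, k1, k2, k3, k4, le_neg_of_le_neg k5⟩

end Pool.Agent.Results.MP_31d0eb_nt.TwoSidedEveryExponent
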